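import Pool.Agent.helper616_TW.Main

/-!
# Waring's problem with almost all real coefficients

Let `s ≥ k + 2 + ⌊log₂ k⌋`. For almost all positive real coefficients `l 1, …, l s` every sufficiently large real number
`t` is approximated within any given `h > 0` by a value `l 1 x 1 ^ k + … + l s x s ^ k` with positive integers `x i`; in
particular all large integers are of the form `⌊l 1 x 1 ^ k + … + l s x s ^ k⌋`.

Proof: (1) for `k + 1` variables the variance of the number of solutions over the coefficients and over `t ≤ T`
(Plancherel; the mean square of the exponential sum `∑ e(ξ l x ^ k)` over `l`) shows that the set of the exceptional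
`t ≤ T` has measure `T / P`, `P = T ^ (1 / k)`, up to logarithms; (2) every further variable, with only two values
`z, z'`, squares the density of the exceptional set `E`, since on average over `l` the sets `E + l z ^ k` and
`E + l z' ^ k` are independent; after `m` steps with `2 ^ m > k` nothing is left.
-/

set_option autoImplicit false

open Filter Topology MeasureTheory

namespace Pool.Agent.Results.MP_ee77ae_nt.AlmostAllCoefficients

/-- Let `k ≥ 2` and `s ≥ k + 2 + ⌊log₂ k⌋`. For almost all `l ∈ (0, ∞) ^ s` and all `h > 0`, for every sufficiently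
large real number `t` there are positive integers `x 1, …, x s` with `t < ∑ l i * x i ^ k ≤ t + h`. -/
theorem result (k s : ℕ) (hk : 2 ≤ k) (hs : k + 2 + Nat.log 2 k ≤ s) :
    ∀ᵐ l : Fin s → ℝ, (∀ i, 0 < l i) → ∀ h : ℝ, 0 < h → ∀ᶠ t : ℝ in atTop,
      ∃ x : Fin s → ℕ, (∀ i, 1 ≤ x i) ∧ t < ∑ i, l i * (x i : ℝ) ^ k ∧ ∑ i, l i * (x i : ℝ) ^ k ≤ t + h := by
  obtain ⟨m, rfl⟩ : ∃ m, s = k + 1 + m := ⟨s - (k + 1), by omega⟩
  have hm : k < 2 ^ m := by
    have h1 : k < 2 ^ (Nat.log 2 k).succ := Nat.lt_pow_succ_log_self (by norm_num) k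
    exact lt_of_lt_of_le h1 (Nat.pow_le_pow_right (by norm_num) (by omega))
  exact Pool.Agent.helper616_TW.waring k m hk hm

end Pool.Agent.Results.MP_ee77ae_nt.AlmostAllCoefficients
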